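import Pool.Agent.Helper68.MWF.BACKc
import Pool.Agent.Helper23.MWF.Xor

/-!
# MP_80e84b_lc (S14965): module BACK, final form
-/

set_option autoImplicit false

namespace Pool.Agent.Helper68.MWF

open Pool.Agent.Helper95.MW Pool.Agent.Helper69.MWF

theorem st_BACK (hPR : ST_PR) (hUNI : ST_UNI2) (hSW : ST_BORSW) (hKK : ST_KK) (hUN : ST_UN)
    (hSUB : ST_SUB) (hCEC : ST_CEC) : ST_BACK :=
  back_core hPR hUNI hSW hKK hUN hSUB hCEC fun _ _ _ h1 h2 =>
    (Pool.Agent.Helper23.MWF.xr_le_jn _ _).trans (jn_le h1 h2)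

end Pool.Agent.Helper68.MWF
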