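import Pool.Agent.Helper69.MWF.Stmts

/-!
# MP_80e84b_lc (S14965): module BACK
-/

set_option autoImplicit false

open Topology Set Filter
open Nat.Partrec (Code)

namespace Pool.Agent.Helper68.MWF

open Pool.Agent.Helper95.MW Pool.Agent.Helper69.MWF

theorem cy_open (f : ℕ → ℕ) (n : ℕ) : IsOpen (Cy f n) := by
  have e : Cy f n = ⋂ i ∈ Finset.range n, (fun x : ℕ → ℕ => x i) ⁻¹' {f i} := by
    ext x
    simp [Cy]
  rw [e]
  exact isOpen_biInter_finset fun i _ => (isOpen_discrete {f i}).preimage (continuous_apply i)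

theorem cy_self (f : ℕ → ℕ) (n : ℕ) : f ∈ Cy f n := fun _ _ => rfl

theorem cy_mono {f x : ℕ → ℕ} {m n : ℕ} (h : m ≤ n) (hx : x ∈ Cy f n) : x ∈ Cy f m :=
  fun i hi => hx i (lt_of_lt_of_le hi h)

theorem cy_trans {f g x : ℕ → ℕ} {n : ℕ} (h : g ∈ Cy f n) (hx : x ∈ Cy g n) : x ∈ Cy f n :=
  fun i hi => (hx i hi).trans (h i hi)

theorem pi_jn {π : (ℕ → ℕ) → (ℕ → ℕ)} (h : PiAut π) (f g : ℕ → ℕ) :
    LE (π (jn f g)) (jn (π f) (π g)) := by
  obtain ⟨w, h1, h2⟩ := h.surj (jn (π f) (π g))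
  have h3 : LE f w := (h.iff _ _).2 ((le_jn_left _ _).trans h2)
  have h4 : LE g w := (h.iff _ _).2 ((le_jn_right _ _).trans h2)
  exact ((h.iff _ _).1 (jn_le h3 h4)).trans h1

theorem measurable_jn {α : Type*} [MeasurableSpace α] {a b : α → ℕ → ℕ} (ha : Measurable a)
    (hb : Measurable b) : Measurable fun x => jn (a x) (b x) := by
  refine measurable_pi_iff.2 fun n => ?_
  exact (measurable_of_countable (fun v : ℕ × ℕ => Nat.pair v.1 v.2)).comp
    ((measurable_pi_iff.1 ha n).prodMk (measurable_pi_iff.1 hb n))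

theorem measurable_xr {α : Type*} [MeasurableSpace α] {a b : α → ℕ → ℕ} (ha : Measurable a)
    (hb : Measurable b) : Measurable fun x => xr (a x) (b x) := by
  refine measurable_pi_iff.2 fun n => ?_
  exact (measurable_of_countable (fun v : ℕ × ℕ => v.1 ^^^ v.2)).comp
    ((measurable_pi_iff.1 ha n).prodMk (measurable_pi_iff.1 hb n))

theorem xr_xr (k h : ℕ → ℕ) : xr k (xr k h) = h := by
  funext n
  simp [xr]

theorem back_core (hPR : ST_PR) (hUNI : ST_UNI2) (hSW : ST_BORSW) (hKK : ST_KK) (hUN : ST_UN)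
    (hSUB : ST_SUB) (hCEC : ST_CEC)
    (hxr : ∀ f g h : ℕ → ℕ, LE f h → LE g h → LE (xr f g) h) : ST_BACK := by
  intro π F G hπ hF A z hA y hy n hCE
  by_contra hcon
  obtain ⟨c, d, hzc, hdc, hcd⟩ := hPR A z hcon
  obtain ⟨e, he⟩ : ∃ e : ℕ → ℕ, range e = A :=
    (A.to_countable.exists_eq_range hA).imp fun _ h => h.symm
  obtain ⟨K1, K2, K3, K4⟩ := hKK A F π G hF e he
  have hCEr : ∀ f w : ℕ → ℕ, LE f w → CEIn (range f) w := hCEC.2.2.2.2.2.2.1
  have hCEA : ∀ k g : ℕ → ℕ, range (e ∘ g) = A → CEIn A (jn k (xr k (e ∘ g))) := by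
    intro k g hg
    have h1 : LE (xr k (xr k (e ∘ g))) (jn k (xr k (e ∘ g))) :=
      hxr _ _ _ (le_jn_left _ _) (le_jn_right _ _)
    rw [xr_xr] at h1
    have h2 := hCEr _ _ h1
    rwa [hg] at h2
  set Φ : (ℕ → ℕ) × (ℕ → ℕ) → (ℕ → ℕ) := fun p => jn (F p.1) (F (xr p.1 (e ∘ p.2))) with hΦ
  set P : Code → Set ((ℕ → ℕ) × (ℕ → ℕ)) := fun j =>
    {p | segs (π d) = WC j (jn (Φ p) (π c))} with hPdef
  have hecomp : Measurable fun p : (ℕ → ℕ) × (ℕ → ℕ) => e ∘ p.2 := by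
    refine measurable_pi_iff.2 fun n => ?_
    exact (measurable_of_countable e).comp ((measurable_pi_apply n).comp measurable_snd)
  have hΦm : Measurable Φ :=
    measurable_jn (hF.meas.comp measurable_fst)
      (hF.meas.comp (measurable_xr measurable_fst hecomp))
  have hPm : ∀ j, MeasurableSet (P j) := by
    intro j
    have h1 : Measurable fun p : (ℕ → ℕ) × (ℕ → ℕ) => (π d, jn (Φ p) (π c)) :=
      measurable_const.prodMk (measurable_jn hΦm measurable_const)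
    exact h1 (hSW j)
  have hcov : ∀ᶠ p in residual ((ℕ → ℕ) × (ℕ → ℕ)), ∃ j, p ∈ P j := by
    filter_upwards [K1, K2] with p hp1 hp2
    have h1 : LE d (jn (jn p.1 (xr p.1 (e ∘ p.2))) c) := hcd _ (hCEA _ _ hp2)
    have h2 : LE (π d) (π (jn (jn p.1 (xr p.1 (e ∘ p.2))) c)) := (hπ.iff _ _).1 h1
    have h3 : LE (π (jn p.1 (xr p.1 (e ∘ p.2)))) (Φ p) := by
      refine (pi_jn hπ _ _).trans (jn_le ?_ ?_)
      · exact (hF.te _ hp1.1).2.trans (le_jn_left _ _)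
      · exact (hF.te _ hp1.2.1).2.trans (le_jn_right _ _)
    have h4 : LE (π d) (jn (Φ p) (π c)) := by
      refine (h2.trans (pi_jn hπ _ _)).trans (jn_le ?_ ?_)
      · exact h3.trans (le_jn_left _ _)
      · exact le_jn_right _ _
    exact ceIn_iff.1 (le_iff_segs.1 h4)
  -- the box
  obtain ⟨⟨k1, k2⟩, hk, rfl⟩ := hy
  obtain ⟨g, hk2, m, hm⟩ := K3 k1 k2 hk n
  obtain ⟨j, f', g', n', hmn', hf', hg', hbox⟩ := hUNI Code P hPm hcov k1 g m
  have hgen : ∀ (a b : ℕ → ℕ) (N : ℕ), ∃ p : (ℕ → ℕ) × (ℕ → ℕ), p.1 ∈ Cy a N ∧ p.2 ∈ Cy b N ∧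
      (p.1, xr p.1 (e ∘ p.2)) ∈ KK A G ∧ (p.1 ∈ Cy f' n' → p.2 ∈ Cy g' n' → p ∈ P j) := by
    intro a b N
    have h1 : Dense {p : (ℕ → ℕ) × (ℕ → ℕ) | (p.1, xr p.1 (e ∘ p.2)) ∈ KK A G ∧
        (p.1 ∈ Cy f' n' → p.2 ∈ Cy g' n' → p ∈ P j)} :=
      dense_of_mem_residual (K1.and hbox)
    obtain ⟨p, hp1, hp2⟩ := h1.inter_open_nonempty ((Cy a N) ×ˢ (Cy b N))
      ((cy_open a N).prod (cy_open b N)) ⟨(a, b), cy_self a N, cy_self b N⟩
    exact ⟨p, hp1.1, hp1.2, hp2.1, hp2.2⟩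
  obtain ⟨⟨k, γ⟩, hkf, hγg, hkk, hPk⟩ := hgen f' g' n'
  have hPk' : segs (π d) = WC j (jn (Φ (k, γ)) (π c)) := hPk hkf hγg
  obtain ⟨m', hm'⟩ := K4 k γ hkk n'
  have hyJ : Φ (k, γ) ∈ JJ A G F := ⟨(k, xr k (e ∘ γ)), hkk, rfl⟩
  have hyC : Φ (k, γ) ∈ Cy (jn (F k1) (F k2)) n :=
    hm k γ (cy_trans hf' (cy_mono hmn' hkf)) (cy_trans hg' (cy_mono hmn' hγg)) hkk
  have hS : CEIn (SS (JJ A G F) (Φ (k, γ)) (max m' n)) (π c) :=
    (hSUB _ _ _ _ _ _ (le_max_right _ _) hyC hCE).mono ((hπ.iff _ _).1 hzc)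
  have hU := hUN j _ (π c) (π c) hS (LE.refl _)
  have hset : {q | ∃ p : List ℕ, ec p ∈ SS (JJ A G F) (Φ (k, γ)) (max m' n) ∧
      ∃ s ≤ p.length, (j.eval (Nat.pair q (ec (zp p (ini (π c) s) s)))).Dom} = segs (π d) := by
    ext q
    constructor
    · rintro ⟨p, ⟨y2, hy2, hcy, t, ht⟩, s, hs, hdom⟩
      have hpt : p = ini y2 t := by
        have := congrArg dl ht
        rwa [dl_ec, dl_ec] at this
      subst hpt
      rw [ini_length] at hs
      rw [ini_jn y2 (π c) s t s hs le_rfl] at hdom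
      obtain ⟨⟨a1, a2⟩, ha, rfl⟩ := hy2
      obtain ⟨g2, hg2, ha1, ha2⟩ := hm' a1 a2 ha (cy_mono (le_max_left _ _) hcy)
      obtain ⟨g3, hg3, m3, hm3⟩ := K3 a1 a2 ha s
      have heg : ∀ i, e (g3 i) = e (g2 i) := by
        intro i
        have h1 : xr a1 (e ∘ g3) = xr a1 (e ∘ g2) := by rw [← hg3, ← ha2]
        have h2 := congrArg (xr a1) h1
        rw [xr_xr, xr_xr] at h2
        exact congrFun h2 i
      obtain ⟨⟨k', γ'⟩, hk', hγ', hkk', hP'⟩ := hgen a1 g2 (max m3 n')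
      have hP2 : segs (π d) = WC j (jn (Φ (k', γ')) (π c)) := by
        refine hP' ?_ ?_
        · exact cy_trans hkf (cy_trans ha1 (cy_mono (le_max_right _ _) hk'))
        · exact cy_trans hγg (cy_trans hg2 (cy_mono (le_max_right _ _) hγ'))
      have hee : e ∘ pre g3 m3 γ' = e ∘ γ' := by
        funext i
        by_cases hi : i < m3
        · have h1 : γ' i = g2 i := hγ' i (lt_of_lt_of_le hi (le_max_left _ _))
          simp [pre, hi, heg, h1]
        · simp [pre, hi]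
      have hcl : jn (F k') (F (xr k' (e ∘ γ'))) ∈ Cy (jn (F a1) (F a2)) s := by
        have h1 := hm3 k' (pre g3 m3 γ') (cy_mono (le_max_left _ _) hk')
          (fun i hi => by simp [pre, hi])
        rw [hee] at h1
        exact h1 hkk'
      rw [hP2]
      refine ⟨s, ?_⟩
      have h2 : ini (jn (Φ (k', γ')) (π c)) s = ini (jn (jn (F a1) (F a2)) (π c)) s := by
        refine ini_eq_of_agree fun i hi => ?_
        change Nat.pair (Φ (k', γ') i) (π c i) = Nat.pair (jn (F a1) (F a2) i) (π c i)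
        have h3 : Φ (k', γ') i = jn (F a1) (F a2) i := hcl i hi
        rw [h3]
      rw [h2]
      exact hdom
    · intro hq
      rw [hPk'] at hq
      obtain ⟨s, hs⟩ := hq
      refine ⟨ini (Φ (k, γ)) s, ⟨Φ (k, γ), hyJ, cy_self _ _, s, rfl⟩, s, ?_, ?_⟩
      · rw [ini_length]
      · rw [ini_jn (Φ (k, γ)) (π c) s s s le_rfl le_rfl]
        exact hs
  rw [hset] at hU
  exact hdc ((hπ.iff _ _).2 (le_iff_segs.2 hU))

end Pool.Agent.Helper68.MWF
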